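import Pool.Agent.V11195.PathProp

/-!
For every `n ≥ 7` the closure of `{4, 6}` is not an interval: it contains `4` and `6` but
not `5`.
-/

namespace Pool.Agent.Results.MP_0ab4d0_co.NotInterval

open Pool.Agent.V11195.PathProp

/-- A set of naturals is an interval: it is `{i : r ≤ i ≤ s}` for some integers `r, s`. -/
def IsInterval (T : Set ℕ) : Prop := ∃ r s : ℤ, T = {i : ℕ | r ≤ i ∧ (i : ℤ) ≤ s}

/-! ### Order 7 -/

/-- Neighbour lists of a graph of order `7`. -/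
def nb7 : Fin 7 → List (Fin 7) := ![[4, 5], [3, 5, 6], [3, 4, 6], [1, 2, 6], [0, 2, 6], [0, 1, 6], [1, 2, 3, 4, 5]]

/-- A graph of order `7` with `P_4`, `P_6` but not `P_5`. -/
def g7 : SimpleGraph (Fin 7) where
  Adj a b := b ∈ nb7 a
  symm := ⟨by decide⟩
  loopless := ⟨by decide⟩

instance : DecidableRel g7.Adj := fun a b => inferInstanceAs (Decidable (b ∈ nb7 a))

/-- Explicit paths with `4` and `6` vertices in `g7`. -/
def cert7 : List (List (List (List (Fin 7)))) := [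
  [[], [[0, 4, 6, 1], [0, 4, 2, 3, 6, 1]], [[0, 4, 6, 2], [0, 4, 6, 1, 3, 2]], [[0, 4, 2, 3], [0, 4, 2, 6, 1, 3]], [[0, 5, 6, 4], [0, 5, 1, 3, 2, 4]], [[0, 4, 6, 5], [0, 4, 2, 3, 1, 5]], [[0, 4, 2, 6], [0, 4, 2, 3, 1, 6]]],
  [[], [], [[1, 3, 6, 2], [1, 5, 0, 4, 6, 2]], [[1, 5, 6, 3], [1, 5, 0, 4, 2, 3]], [[1, 3, 2, 4], [1, 3, 6, 5, 0, 4]], [[1, 3, 6, 5], [1, 3, 2, 4, 0, 5]], [[1, 3, 2, 6], [1, 5, 0, 4, 2, 6]]],
  [[], [], [], [[2, 4, 6, 3], [2, 4, 0, 5, 1, 3]], [[2, 3, 6, 4], [2, 3, 1, 5, 0, 4]], [[2, 3, 1, 5], [2, 3, 6, 4, 0, 5]], [[2, 3, 1, 6], [2, 4, 0, 5, 1, 6]]],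
  [[], [], [], [], [[3, 1, 6, 4], [3, 1, 5, 6, 2, 4]], [[3, 1, 6, 5], [3, 1, 6, 4, 0, 5]], [[3, 1, 5, 6], [3, 1, 5, 0, 4, 6]]],
  [[], [], [], [], [], [[4, 2, 6, 5], [4, 2, 3, 1, 6, 5]], [[4, 0, 5, 6], [4, 0, 5, 1, 3, 6]]],
  [[], [], [], [], [], [], [[5, 0, 4, 6], [5, 0, 4, 2, 3, 6]]],
  [[], [], [], [], [], [], []]]

/-- The path between `u` and `v` with `4` (for `k = 0`) or `6` (for `k = 1`) vertices. -/
def get7 (u v : Fin 7) (k : Fin 2) : List (Fin 7) :=
  ((cert7.getD u []).getD v []).getD k []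

lemma cert7_ok : ∀ u v : Fin 7, u < v → ∀ k : Fin 2,
    (get7 u v k).length = (![4, 6] : Fin 2 → ℕ) k ∧ (get7 u v k).Nodup ∧
      (get7 u v k).IsChain g7.Adj ∧ (get7 u v k).head? = some u ∧
      (get7 u v k).getLast? = some v := by
  decide +kernel

lemma g7_HasP (k : Fin 2) : HasP g7 ((![4, 6] : Fin 2 → ℕ) k) := by
  intro u v huv
  rcases lt_or_gt_of_ne huv with h | h
  · exact ⟨_, cert7_ok u v h k⟩
  · exact joined_symm ⟨_, cert7_ok v u h k⟩

lemma g7_not : ¬ HasP g7 5 := by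
  intro h
  have := h 3 6 (by decide)
  rw [joined_five] at this
  have hd : ∀ a b c : Fin 7, ¬ (([3, a, b, c, 6] : List (Fin 7)).Nodup ∧ g7.Adj 3 a ∧
      g7.Adj a b ∧ g7.Adj b c ∧ g7.Adj c 6) := by
    decide +kernel
  obtain ⟨a, b, c, h'⟩ := this
  exact hd a b c h'

/-! ### Order at least 8 -/

/-- Neighbour lists of a graph of order `8`. -/
def nb8 : Fin 8 → List (Fin 8) := ![[1, 2, 6], [0, 3, 6], [0, 3, 7], [1, 2, 7], [5, 6, 7], [4, 6, 7], [0, 1, 4, 5, 7], [2, 3, 4, 5, 6]]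

/-- A graph of order `8` with `P_4`, `P_6` but not `P_5`. -/
def g8 : SimpleGraph (Fin 8) where
  Adj a b := b ∈ nb8 a
  symm := ⟨by decide⟩
  loopless := ⟨by decide⟩

instance : DecidableRel g8.Adj := fun a b => inferInstanceAs (Decidable (b ∈ nb8 a))

/-- Explicit paths with `4` and `6` vertices in `g8`. -/
def cert8 : List (List (List (List (Fin 8)))) := [
  [[], [[0, 2, 3, 1], [0, 2, 3, 7, 6, 1]], [[0, 1, 3, 2], [0, 1, 6, 4, 7, 2]], [[0, 2, 7, 3], [0, 1, 6, 4, 7, 3]], [[0, 1, 6, 4], [0, 1, 3, 2, 7, 4]], [[0, 1, 6, 5], [0, 1, 3, 2, 7, 5]], [[0, 2, 7, 6], [0, 1, 3, 2, 7, 6]], [[0, 1, 3, 7], [0, 1, 6, 4, 5, 7]]],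
  [[], [], [[1, 3, 7, 2], [1, 0, 6, 4, 7, 2]], [[1, 0, 2, 3], [1, 0, 6, 4, 7, 3]], [[1, 0, 6, 4], [1, 0, 2, 3, 7, 4]], [[1, 0, 6, 5], [1, 0, 2, 3, 7, 5]], [[1, 3, 7, 6], [1, 0, 2, 3, 7, 6]], [[1, 0, 2, 7], [1, 0, 6, 4, 5, 7]]],
  [[], [], [], [[2, 0, 1, 3], [2, 0, 1, 6, 7, 3]], [[2, 0, 6, 4], [2, 0, 1, 3, 7, 4]], [[2, 0, 6, 5], [2, 0, 1, 3, 7, 5]], [[2, 0, 1, 6], [2, 0, 1, 3, 7, 6]], [[2, 0, 6, 7], [2, 0, 1, 6, 4, 7]]],
  [[], [], [], [], [[3, 1, 6, 4], [3, 1, 0, 2, 7, 4]], [[3, 1, 6, 5], [3, 1, 0, 2, 7, 5]], [[3, 1, 0, 6], [3, 1, 0, 2, 7, 6]], [[3, 1, 6, 7], [3, 1, 0, 6, 4, 7]]],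
  [[], [], [], [], [], [[4, 6, 7, 5], [4, 6, 0, 2, 7, 5]], [[4, 5, 7, 6], [4, 5, 7, 2, 0, 6]], [[4, 5, 6, 7], [4, 5, 6, 0, 2, 7]]],
  [[], [], [], [], [], [], [[5, 4, 7, 6], [5, 4, 7, 2, 0, 6]], [[5, 4, 6, 7], [5, 4, 6, 0, 2, 7]]],
  [[], [], [], [], [], [], [], [[6, 0, 2, 7], [6, 0, 1, 3, 2, 7]]],
  [[], [], [], [], [], [], [], []]]

/-- The path between `u` and `v` with `4` (for `k = 0`) or `6` (for `k = 1`) vertices. -/
def get8 (u v : Fin 8) (k : Fin 2) : List (Fin 8) :=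
  ((cert8.getD u []).getD v []).getD k []

lemma cert8_ok : ∀ u v : Fin 8, u < v → ∀ k : Fin 2,
    (get8 u v k).length = (![4, 6] : Fin 2 → ℕ) k ∧ (get8 u v k).Nodup ∧
      (get8 u v k).IsChain g8.Adj ∧ (get8 u v k).head? = some u ∧
      (get8 u v k).getLast? = some v := by
  decide +kernel

lemma g8_HasP (k : Fin 2) : HasP g8 ((![4, 6] : Fin 2 → ℕ) k) := by
  intro u v huv
  rcases lt_or_gt_of_ne huv with h | h
  · exact ⟨_, cert8_ok u v h k⟩
  · exact joined_symm ⟨_, cert8_ok v u h k⟩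

lemma g8_not : ¬ Joined g8 5 4 5 := by
  rw [joined_five]
  have hd : ∀ a b c : Fin 8, ¬ (([4, a, b, c, 5] : List (Fin 8)).Nodup ∧ g8.Adj 4 a ∧
      g8.Adj a b ∧ g8.Adj b c ∧ g8.Adj c 5) := by
    decide +kernel
  rintro ⟨a, b, c, h'⟩
  exact hd a b c h'

/-- The inductive statement. -/
def Good46 (n : ℕ) : Prop := ∃ (V : Type) (_ : Fintype V) (_ : DecidableEq V)
  (G : SimpleGraph V), Fintype.card V = n ∧ HasP G 4 ∧ HasP G 6 ∧
  ∃ u v w y z : V, u ≠ v ∧ ¬ Joined G 5 u v ∧ w ≠ u ∧ w ≠ v ∧ ¬ G.Adj w u ∧ ¬ G.Adj w v ∧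
    G.Adj w y ∧ Joined G 3 w y ∧ G.Adj w z ∧ Joined G 5 w z

lemma good_base : Good46 8 := by
  refine ⟨Fin 8, inferInstance, inferInstance, g8, by simp, g8_HasP 0, g8_HasP 1, 4, 5, 0, 1, 1,
    by decide, g8_not, by decide, by decide, by decide, by decide, by decide, ?_, by decide, ?_⟩
  · exact ⟨[0, 6, 1], by decide⟩
  · exact ⟨[0, 2, 7, 3, 1], by decide⟩

lemma good_succ {n : ℕ} (h : Good46 n) : Good46 (n + 1) := by
  obtain ⟨V, _, _, G, hcard, h4, h6, u, v, w, y, z, huv, h5, hwu, hwv, hwu', hwv', hwy, hwy3,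
    hwz, hwz5⟩ := h
  refine ⟨Option V, inferInstance, inferInstance, twin G w, by simp [hcard], ?_, ?_,
    some u, some v, some w, some y, some z, ?_, ?_, ?_, ?_, hwu', hwv', hwy, joined_map hwy3,
    hwz, joined_map hwz5⟩
  · have hn : ∀ s : V, Joined (twin G w) 4 (some s) none := by
      intro s
      by_cases hs : s = w
      · subst hs; exact joined_append hwy3 (Or.inr hwy)
      · exact joined_replace hs (h4 s w hs)
    rintro (_ | s) (_ | t) hst
    · exact absurd rfl hst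
    · exact joined_symm (hn t)
    · exact hn s
    · exact joined_map (h4 s t fun h => hst (by rw [h]))
  · have hn : ∀ s : V, Joined (twin G w) 6 (some s) none := by
      intro s
      by_cases hs : s = w
      · subst hs; exact joined_append hwz5 (Or.inr hwz)
      · exact joined_replace hs (h6 s w hs)
    rintro (_ | s) (_ | t) hst
    · exact absurd rfl hst
    · exact joined_symm (hn t)
    · exact hn s
    · exact joined_map (h6 s t fun h => hst (by rw [h]))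
  · exact fun h => huv (Option.some_injective _ h)
  · intro hj
    rw [joined_five] at hj
    obtain ⟨a, b, c, hnd, e1, e2, e3, e4⟩ := hj
    apply h5
    rw [joined_five]
    cases a with
    | none => rcases e1 with e1 | e1
              · exact absurd e1.symm hwu
              · exact absurd e1 hwu'
    | some a =>
      cases c with
      | none => rcases e4 with e4 | e4
                · exact absurd e4.symm hwv
                · exact absurd e4 hwv'
      | some c =>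
        cases b with
        | some b =>
          refine ⟨a, b, c, ?_, e1, e2, e3, e4⟩
          simpa using hnd
        | none =>
          have ha : G.Adj w a := by
            rcases e2 with e2 | e2
            · subst e2
              exact absurd (G.adj_symm e1) hwu'
            · exact e2
          have hc : G.Adj w c := by
            rcases e3 with e3 | e3
            · subst e3
              exact absurd e4 hwv'
            · exact e3
          refine ⟨a, w, c, ?_, e1, ha.symm, hc, e4⟩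
          have haw := G.ne_of_adj ha
          have hcw := G.ne_of_adj hc
          simp at hnd ⊢
          tauto
  · exact fun h => hwu (Option.some_injective _ h)
  · exact fun h => hwv (Option.some_injective _ h)

/-- **Main theorem.** For every `n ≥ 7` the closure of `S = {4, 6}` (a subset of `{4,…,n}`)
contains `4` and `6` but not `5`, so it is not an interval. -/
theorem result (n : ℕ) (hn : 7 ≤ n) :
    (4 ∈ closure n {4, 6} ∧ 5 ∉ closure n {4, 6} ∧ 6 ∈ closure n {4, 6}) ∧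
      ¬ IsInterval (closure n {4, 6}) := by
  have h4 : 4 ∈ closure n {4, 6} :=
    ⟨by norm_num, by omega, fun V _ G _ h => h 4 (by simp)⟩
  have h6 : 6 ∈ closure n {4, 6} :=
    ⟨by norm_num, by omega, fun V _ G _ h => h 6 (by simp)⟩
  have h5 : 5 ∉ closure n {4, 6} := by
    rintro ⟨-, -, h⟩
    rcases Nat.eq_or_lt_of_le hn with h7 | h8
    · subst h7
      refine g7_not (h (Fin 7) g7 (by simp) ?_)
      intro i hi
      simp only [Set.mem_insert_iff, Set.mem_singleton_iff] at hi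
      rcases hi with rfl | rfl
      · exact g7_HasP 0
      · exact g7_HasP 1
    · have hg : Good46 n := by
        have h8' : 8 ≤ n := h8
        clear h8 h h4 h6 hn
        induction n, h8' using Nat.le_induction with
        | base => exact good_base
        | succ n hn ih => exact good_succ ih
      obtain ⟨V, i1, _, G, hcard, hP4, hP6, u, v, w, y, z, huv, h5', _⟩ := hg
      refine h5' (h V G hcard ?_ u v huv)
      intro i hi
      simp only [Set.mem_insert_iff, Set.mem_singleton_iff] at hi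
      rcases hi with rfl | rfl
      · exact hP4
      · exact hP6
  refine ⟨⟨h4, h5, h6⟩, ?_⟩
  rintro ⟨r, s, hrs⟩
  rw [hrs] at h4 h5 h6
  apply h5
  simp only [Set.mem_setOf_eq] at h4 h6 ⊢
  constructor
  · have := h4.1; push_cast at this ⊢; linarith
  · have := h6.2; push_cast at this ⊢; linarith

end Pool.Agent.Results.MP_0ab4d0_co.NotInterval
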